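import Pool.Agent.J6H79.WP.Wall

/-! # Axisymmetric flows without swirl

Dimension three, in cylindrical coordinates: a point of `E` is `(t, x, y)` with `x > 0` the distance
to the axis and `y` the height, `u` the radial and `v` the axial velocity. -/

set_option autoImplicit false

namespace Pool.Agent.J6H79.WP

open Set Filter Topology Pool.Agent.Q176.WL

/-- `(u, v, p)` is a classical solution (`C³`, pressure `C²`) of the three-dimensional
Navier-Stokes equations with unit viscosity which is axisymmetric without swirl, in cylindrical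
coordinates: `x` is the distance to the axis, `u` the radial and `v` the axial velocity;
`u_t + u u_x + v u_y - (u_xx + u_x / x - u / x² + u_yy) + p_x = 0`,
`v_t + u v_x + v v_y - (v_xx + v_x / x + v_yy) + p_y = 0`, `u_x + u / x + v_y = 0`. -/
structure IsAxi (O : Set E) (u v p : E → ℝ) : Prop where
  smooth_u : ContDiffOn ℝ 3 u O
  smooth_v : ContDiffOn ℝ 3 v O
  smooth_p : ContDiffOn ℝ 2 p O
  eq_u : ∀ z ∈ O, pd et u z + u z * pd ex u z + v z * pd ey u z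
    - (pd ex (pd ex u) z + pd ex u z / z.2.1 - u z / z.2.1 ^ 2 + pd ey (pd ey u) z)
    + pd ex p z = 0
  eq_v : ∀ z ∈ O, pd et v z + u z * pd ex v z + v z * pd ey v z
    - (pd ex (pd ex v) z + pd ex v z / z.2.1 + pd ey (pd ey v) z) + pd ey p z = 0
  div : ∀ z ∈ O, pd ex u z + u z / z.2.1 + pd ey v z = 0

/-- The inverse of the distance to the axis. -/
noncomputable def J : E → ℝ := fun z => (z.2.1)⁻¹

lemma J_fd {z : E} (hz : 0 < z.2.1) :
    HasFDerivAt J (-((z.2.1) ^ 2)⁻¹ • ((ContinuousLinearMap.fst ℝ ℝ ℝ).comp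
      (ContinuousLinearMap.snd ℝ ℝ (ℝ × ℝ)))) z := by
  have h1 : HasFDerivAt (fun z : E => z.2.1) ((ContinuousLinearMap.fst ℝ ℝ ℝ).comp
      (ContinuousLinearMap.snd ℝ ℝ (ℝ × ℝ))) z :=
    ((ContinuousLinearMap.fst ℝ ℝ ℝ).comp (ContinuousLinearMap.snd ℝ ℝ (ℝ × ℝ))).hasFDerivAt
  exact (hasDerivAt_inv hz.ne').comp_hasFDerivAt z h1

lemma J_t {z : E} (hz : 0 < z.2.1) : HasPd et J z 0 := by
  refine ⟨(J_fd hz).differentiableAt, ?_⟩
  unfold pd
  rw [(J_fd hz).fderiv]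
  simp [et]

lemma J_x {z : E} (hz : 0 < z.2.1) : HasPd ex J z (-(J z) ^ 2) := by
  refine ⟨(J_fd hz).differentiableAt, ?_⟩
  unfold pd
  rw [(J_fd hz).fderiv]
  simp [ex, J]

lemma J_y {z : E} (hz : 0 < z.2.1) : HasPd ey J z 0 := by
  refine ⟨(J_fd hz).differentiableAt, ?_⟩
  unfold pd
  rw [(J_fd hz).fderiv]
  simp [ey]

/-- The equation for `ω_θ / x`. -/
theorem axi_eq {O : Set E} (hO : IsOpen O) (hx : ∀ z ∈ O, 0 < z.2.1) {u v p : E → ℝ}
    (h : IsAxi O u v p) {w : E → ℝ}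
    (hw : ∀ z ∈ O, w z = (pd ex v z - pd ey u z) / z.2.1) :
    ContDiffOn ℝ ((2 : ℕ) : ℕ∞) w O ∧ ∀ z ∈ O, pd et w z + (u z - 3 * J z) * pd ex w z
      + v z * pd ey w z = pd ex (pd ex w) z + pd ey (pd ey w) z := by
  have su : ContDiffOn ℝ ((3 : ℕ) : ℕ∞) u O := by exact_mod_cast h.smooth_u
  have sv : ContDiffOn ℝ ((3 : ℕ) : ℕ∞) v O := by exact_mod_cast h.smooth_v
  have sp : ContDiffOn ℝ ((2 : ℕ) : ℕ∞) p O := by exact_mod_cast h.smooth_p
  have su2 : ContDiffOn ℝ ((2 : ℕ) : ℕ∞) u O := su.of_le (by norm_cast)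
  have sv2 : ContDiffOn ℝ ((2 : ℕ) : ℕ∞) v O := sv.of_le (by norm_cast)
  have u1 : ∀ e, ContDiffOn ℝ ((2 : ℕ) : ℕ∞) (pd e u) O := fun e => pd_contDiffOn hO su e
  have v1 : ∀ e, ContDiffOn ℝ ((2 : ℕ) : ℕ∞) (pd e v) O := fun e => pd_contDiffOn hO sv e
  have u2 : ∀ e e', ContDiffOn ℝ ((1 : ℕ) : ℕ∞) (pd e (pd e' u)) O := fun e e' =>
    pd_contDiffOn hO (u1 e') e
  have v2 : ∀ e e', ContDiffOn ℝ ((1 : ℕ) : ℕ∞) (pd e (pd e' v)) O := fun e e' =>
    pd_contDiffOn hO (v1 e') e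
  have p1 : ∀ e, ContDiffOn ℝ ((1 : ℕ) : ℕ∞) (pd e p) O := fun e => pd_contDiffOn hO sp e
  have sJ : ContDiffOn ℝ ((2 : ℕ) : ℕ∞) J O := by
    unfold J
    refine ContDiffOn.inv ?_ (fun z hz => (hx z hz).ne')
    exact (contDiff_fst.comp contDiff_snd).contDiffOn
  set om : E → ℝ := fun z => pd ex v z - pd ey u z with hom
  have som : ContDiffOn ℝ ((2 : ℕ) : ℕ∞) om O := (v1 ex).sub (u1 ey)
  have hwJ : ∀ z ∈ O, w z = J z * om z := by
    intro z hz
    rw [hw z hz]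
    simp only [J, hom]
    rw [div_eq_mul_inv]; ring
  have hwc : ContDiffOn ℝ ((2 : ℕ) : ℕ∞) w O := (sJ.mul som).congr hwJ
  refine ⟨hwc, ?_⟩
  have som1 : ∀ e, ContDiffOn ℝ ((1 : ℕ) : ℕ∞) (pd e om) O := fun e => pd_contDiffOn hO som e
  have k : ∀ {z : E} {F : E → ℝ} (e : E), DifferentiableAt ℝ F z → HasPd e F z (pd e F z) :=
    fun e hF => ⟨hF, rfl⟩
  have dom : ∀ z ∈ O, DifferentiableAt ℝ om z := fun z hz => diffAt hO (by norm_num) som hz
  have dom1 : ∀ e, ∀ z ∈ O, DifferentiableAt ℝ (pd e om) z := fun e z hz =>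
    diffAt hO (n := 1) (by norm_num) (som1 e) hz
  -- derivatives of w
  have wt : ∀ z ∈ O, pd et w z = J z * pd et om z := by
    intro z hz
    rw [pd_congr hO hwJ hz et, ((J_t (hx z hz)).mul (k et (dom z hz))).2]; ring
  have wx : ∀ z ∈ O, pd ex w z = J z * pd ex om z - J z ^ 2 * om z := by
    intro z hz
    rw [pd_congr hO hwJ hz ex, ((J_x (hx z hz)).mul (k ex (dom z hz))).2]; ring
  have wy : ∀ z ∈ O, pd ey w z = J z * pd ey om z := by
    intro z hz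
    rw [pd_congr hO hwJ hz ey, ((J_y (hx z hz)).mul (k ey (dom z hz))).2]; ring
  have wyy : ∀ z ∈ O, pd ey (pd ey w) z = J z * pd ey (pd ey om) z := by
    intro z hz
    rw [pd_congr hO wy hz ey, ((J_y (hx z hz)).mul (k ey (dom1 ey z hz))).2]; ring
  have wxx : ∀ z ∈ O, pd ex (pd ex w) z = J z * pd ex (pd ex om) z - 2 * J z ^ 2 * pd ex om z
      + 2 * J z ^ 3 * om z := by
    intro z hz
    have hJ2 : HasPd ex (fun z => J z * J z) z (J z * (-(J z) ^ 2) + J z * (-(J z) ^ 2)) :=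
      (J_x (hx z hz)).mul (J_x (hx z hz))
    have wx' : ∀ z ∈ O, pd ex w z = J z * pd ex om z - (J z * J z) * om z := by
      intro z hz; rw [wx z hz]; ring
    rw [pd_congr hO wx' hz ex, (((J_x (hx z hz)).mul (k ex (dom1 ex z hz))).sub
      (hJ2.mul (k ex (dom z hz)))).2]
    ring
  -- derivatives of om
  have w1 : ∀ e, ∀ z ∈ O, pd e om z = pd e (pd ex v) z - pd e (pd ey u) z := by
    intro e z hz
    rw [hom, pd_sub' e (diffAt hO (by norm_num) (v1 ex) hz)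
      (diffAt hO (by norm_num) (u1 ey) hz)]
  have w2 : ∀ e, ∀ z ∈ O, pd e (pd e om) z
      = pd e (pd e (pd ex v)) z - pd e (pd e (pd ey u)) z := by
    intro e z hz
    rw [pd_congr hO (w1 e) hz e, pd_sub' e (diffAt hO (by norm_num) (v2 e ex) hz)
      (diffAt hO (by norm_num) (u2 e ey) hz)]
  intro z hz
  have hxz := hx z hz
  have du := diffAt hO (by norm_num) su hz
  have dv := diffAt hO (by norm_num) sv hz
  have du1 : ∀ e, DifferentiableAt ℝ (pd e u) z := fun e => diffAt hO (by norm_num) (u1 e) hz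
  have dv1 : ∀ e, DifferentiableAt ℝ (pd e v) z := fun e => diffAt hO (by norm_num) (v1 e) hz
  have du2 : ∀ e e', DifferentiableAt ℝ (pd e (pd e' u)) z := fun e e' =>
    diffAt hO (by norm_num) (u2 e e') hz
  have dv2 : ∀ e e', DifferentiableAt ℝ (pd e (pd e' v)) z := fun e e' =>
    diffAt hO (by norm_num) (v2 e e') hz
  have dp1 : ∀ e, DifferentiableAt ℝ (pd e p) z := fun e => diffAt hO (by norm_num) (p1 e) hz
  have equ : ∀ z ∈ O, pd et u z + u z * pd ex u z + v z * pd ey u z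
      - (pd ex (pd ex u) z + J z * pd ex u z - (J z * J z) * u z + pd ey (pd ey u) z)
      + pd ex p z = 0 := by
    intro z hz
    rw [← h.eq_u z hz]
    simp only [J]
    ring
  have eqv : ∀ z ∈ O, pd et v z + u z * pd ex v z + v z * pd ey v z
      - (pd ex (pd ex v) z + J z * pd ex v z + pd ey (pd ey v) z) + pd ey p z = 0 := by
    intro z hz
    rw [← h.eq_v z hz]
    simp only [J]
    ring
  have e1 : pd ey (fun z => pd et u z + u z * pd ex u z + v z * pd ey u z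
      - (pd ex (pd ex u) z + J z * pd ex u z - (J z * J z) * u z + pd ey (pd ey u) z)
      + pd ex p z) z = 0 := by
    rw [pd_congr hO (G := fun _ => 0) equ hz ey]
    simp [pd]
  have e2 : pd ex (fun z => pd et v z + u z * pd ex v z + v z * pd ey v z
      - (pd ex (pd ex v) z + J z * pd ex v z + pd ey (pd ey v) z) + pd ey p z) z = 0 := by
    rw [pd_congr hO (G := fun _ => 0) eqv hz ex]
    simp [pd]
  have f1 := ((((k ey (du1 et)).add ((k ey du).mul (k ey (du1 ex)))).add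
    ((k ey dv).mul (k ey (du1 ey)))).sub
      ((((k ey (du2 ex ex)).add ((J_y hxz).mul (k ey (du1 ex)))).sub
        (((J_y hxz).mul (J_y hxz)).mul (k ey du))).add (k ey (du2 ey ey)))).add (k ey (dp1 ex))
  have f2 := ((((k ex (dv1 et)).add ((k ex du).mul (k ex (dv1 ex)))).add
    ((k ex dv).mul (k ex (dv1 ey)))).sub
      (((k ex (dv2 ex ex)).add ((J_x hxz).mul (k ex (dv1 ex)))).add
        (k ex (dv2 ey ey)))).add (k ex (dp1 ey))
  rw [f1.2] at e1
  rw [f2.2] at e2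
  -- commutations
  have c1 : pd et (pd ex v) z = pd ex (pd et v) z := pd_comm hO sv2 hz et ex
  have c2 : pd et (pd ey u) z = pd ey (pd et u) z := pd_comm hO su2 hz et ey
  have c3 : pd ex (pd ey u) z = pd ey (pd ex u) z := pd_comm hO su2 hz ex ey
  have c4 : pd ey (pd ex v) z = pd ex (pd ey v) z := pd_comm hO sv2 hz ey ex
  have c5 : pd ex (pd ex (pd ey u)) z = pd ey (pd ex (pd ex u)) z := by
    have q1 : ∀ z ∈ O, pd ex (pd ey u) z = pd ey (pd ex u) z := fun z hz => pd_comm hO su2 hz ex ey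
    rw [pd_congr hO q1 hz ex]
    exact pd_comm hO (u1 ex) hz ex ey
  have c6 : pd ey (pd ey (pd ex v)) z = pd ex (pd ey (pd ey v)) z := by
    have q1 : ∀ z ∈ O, pd ey (pd ex v) z = pd ex (pd ey v) z := fun z hz => pd_comm hO sv2 hz ey ex
    rw [pd_congr hO q1 hz ey]
    exact pd_comm hO (v1 ey) hz ey ex
  have c7 : pd ex (pd ey p) z = pd ey (pd ex p) z := pd_comm hO sp hz ex ey
  have hdiv : pd ex u z + J z * u z + pd ey v z = 0 := by
    rw [← h.div z hz]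
    simp only [J]
    ring
  rw [wt z hz, wx z hz, wy z hz, wxx z hz, wyy z hz, w1 et z hz, w1 ex z hz, w1 ey z hz,
    w2 ex z hz, w2 ey z hz, c1, c2, c3, c4, c5, c6]
  have eom : om z = pd ex v z - pd ey u z := rfl
  rw [eom]
  rw [c7] at e2
  linear_combination J z * e2 - J z * e1 - J z * (pd ex v z - pd ey u z) * hdiv

/-- The bound at the final time for `ω_θ / x` near a wall, for axisymmetric flows without swirl. -/
theorem axi {Ω : Set (ℝ × ℝ)} {c : ℝ × ℝ} {δ : ℝ} {d : ℝ × ℝ → ℝ} (hd : IsWall Ω c δ d)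
    (hc : 2 * δ ≤ c.1) {T : ℝ} (hT : 0 < T) {u v p w : E → ℝ}
    (hns : IsAxi (Ioo 0 T ×ˢ Reg Ω c δ) u v p)
    (hw : ∀ z ∈ Ioo 0 T ×ˢ Reg Ω c δ, w z = (pd ex v z - pd ey u z) / z.2.1)
    (hwc : ContinuousOn w (Icc 0 T ×ˢ Reg Ω c δ))
    {L l H h : ℝ → ℝ} (hLc : ContinuousOn L (Icc 0 T)) (hL0 : L 0 = 0)
    (hLd : ∀ t ∈ Ioo 0 T, HasDerivAt L (l t) t) (hl : ∀ t ∈ Ioo 0 T, 0 ≤ l t)
    (hHc : ContinuousOn H (Icc 0 T)) (hH0 : H 0 = 0)
    (hHd : ∀ t ∈ Ioo 0 T, HasDerivAt H (h t) t) (hh : ∀ t ∈ Ioo 0 T, 0 ≤ h t)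
    {θ : ℝ} (hθ : 0 ≤ θ)
    (huv : ∀ z ∈ Ioo 0 T ×ˢ Reg Ω c δ, u z ^ 2 + v z ^ 2 ≤ (l z.1 * d z.2) ^ 2)
    (hn : ∀ z ∈ Ioo 0 T ×ˢ Reg Ω c δ,
      |u z * dx d z.2 + v z * dy d z.2| ≤ h z.1 * d z.2 ^ (1 + θ))
    {K a : ℝ} (ha : 0 < a) (haK : a ≤ K) (hK : ∀ z ∈ Ioo 0 T ×ˢ Reg Ω c δ, |w z| ≤ K)
    (h0 : ∀ z ∈ Reg Ω c δ, a ≤ w (0, z)) {r : ℝ} (hr : 0 < r) (hrδ : r ≤ δ / 2)
    (hTr : 30 * T ≤ r * δ)
    (hLT : L T ≤ δ / (16 * r)) (hHT : H T * r ^ θ ≤ 1 / 10)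
    {z : ℝ × ℝ} (hz : z ∈ Reg Ω c δ)
    (hz1 : dsq z c ≤ δ ^ 2 / 4) (hz2 : d z = 3 * r / 5) :
    a - 7 * K * Real.exp (-(r ^ 2 / (100 * T))) ≤ w (T, z) := by
  have hδ := hd.radius_pos
  have hOp : IsOpen (Ioo 0 T ×ˢ Reg Ω c δ) := isOpen_Ioo.prod (isOpen_Reg hd)
  have hx : ∀ z ∈ Ioo 0 T ×ˢ Reg Ω c δ, δ < z.2.1 := by
    intro z hz
    have : dsq z.2 c < δ ^ 2 := hz.2.2
    unfold dsq at this
    have h1 : |z.2.1 - c.1| < δ := abs_lt_of_sq_lt_sq (by nlinarith) hδ.le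
    have := (abs_lt.1 h1).1
    linarith
  obtain ⟨hw2, heq⟩ := axi_eq hOp (fun z hz => hδ.trans (hx z hz)) hns hw
  have hL := mono_nonneg hT hLc hL0 hLd hl
  have hH := mono_nonneg hT hHc hH0 hHd hh
  have hrp : 0 ≤ r ^ (1 + θ) := by positivity
  have hJ : ∀ z ∈ Ioo 0 T ×ˢ Reg Ω c δ, 0 < J z ∧ J z ≤ 1 / δ := by
    intro z hz
    have h1 := hx z hz
    unfold J
    refine ⟨inv_pos.2 (hδ.trans h1), ?_⟩
    rw [one_div]
    exact (inv_le_inv₀ (hδ.trans h1) hδ).2 h1.le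
  refine final (u := fun z => u z - 3 * J z) (v := v) hd hT hwc hw2 heq hr hrδ
    (N := fun t => H t * r ^ (1 + θ) + t * (3 / δ))
    (P := fun t => L t * (2 * δ * r) + t * 6) (n := fun t => h t * r ^ (1 + θ) + 1 * (3 / δ))
    (p := fun t => l t * (2 * δ * r) + 1 * 6)
    ((hHc.mul continuousOn_const).add (continuousOn_id.mul continuousOn_const))
    ((hLc.mul continuousOn_const).add (continuousOn_id.mul continuousOn_const))
    (fun t ht => add_nonneg (mul_nonneg (hH t ht) hrp) (mul_nonneg ht.1 (by positivity)))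
    (fun t ht => add_nonneg (mul_nonneg (hL t ht) (by positivity)) (mul_nonneg ht.1 (by norm_num)))
    (fun t ht => ((hHd t ht).mul_const _).add ((hasDerivAt_id t).mul_const _))
    (fun t ht => ((hLd t ht).mul_const _).add ((hasDerivAt_id t).mul_const _)) ?_ ?_ ?_ ?_
    ha haK hK h0 hz hz1 hz2
  · have e : H T * r ^ (1 + θ) = H T * r ^ θ * r := by
      rw [Real.rpow_add hr, Real.rpow_one]; ring
    show H T * r ^ (1 + θ) + T * (3 / δ) ≤ r / 5
    rw [e]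
    have h1 : T * (3 / δ) ≤ r / 10 := by
      rw [mul_div_assoc', div_le_iff₀ hδ]
      linarith
    nlinarith
  · show L T * (2 * δ * r) + T * 6 ≤ δ ^ 2 / 4
    have h1 := mul_le_mul_of_nonneg_right hLT (by positivity : 0 ≤ 2 * δ * r)
    have e : δ / (16 * r) * (2 * δ * r) = δ ^ 2 / 8 := by field_simp; ring
    rw [e] at h1
    nlinarith
  · intro z hz h1 h2
    show |(u z - 3 * J z) * dx d z.2 + v z * dy d z.2| ≤ h z.1 * r ^ (1 + θ) + 1 * (3 / δ)
    have a1 : h z.1 * d z.2 ^ (1 + θ) ≤ h z.1 * r ^ (1 + θ) := by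
      apply mul_le_mul_of_nonneg_left _ (hh z.1 hz.1)
      exact Real.rpow_le_rpow (by linarith) h2 (by linarith)
    have a2 := hn z hz
    have hg := hd.grad _ hz.2
    have a3 : |dx d z.2| ≤ 1 := by
      apply abs_le_of_sq_le_sq _ (by norm_num)
      nlinarith [sq_nonneg (dy d z.2)]
    have hJz := hJ z hz
    have a4 : |3 * J z * dx d z.2| ≤ 3 / δ := by
      rw [abs_mul, abs_of_pos (by linarith [hJz.1] : 0 < 3 * J z)]
      calc 3 * J z * |dx d z.2| ≤ 3 * J z * 1 :=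
            mul_le_mul_of_nonneg_left a3 (by linarith [hJz.1])
        _ ≤ 3 * (1 / δ) := by linarith [hJz.2]
        _ = 3 / δ := by ring
    have e : (u z - 3 * J z) * dx d z.2 + v z * dy d z.2
        = (u z * dx d z.2 + v z * dy d z.2) - 3 * J z * dx d z.2 := by ring
    rw [e]
    refine (abs_sub _ _).trans ?_
    linarith
  · intro z hz h1 h2
    show |(u z - 3 * J z) * (2 * (z.2.1 - c.1)) + v z * (2 * (z.2.2 - c.2))|
      ≤ l z.1 * (2 * δ * r) + 1 * 6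
    have hl0 := hl z.1 hz.1
    have hd0 : 0 < d z.2 := hd.pos _ hz.2
    have hR : (2 * (z.2.1 - c.1)) ^ 2 + (2 * (z.2.2 - c.2)) ^ 2 ≤ (2 * δ) ^ 2 := by
      have : dsq z.2 c < δ ^ 2 := hz.2.2
      unfold dsq at this
      nlinarith
    have huv' := huv z hz
    have hld : l z.1 * d z.2 ≤ l z.1 * r := mul_le_mul_of_nonneg_left h2 hl0
    have hld2 : (l z.1 * d z.2) ^ 2 ≤ (l z.1 * r) ^ 2 :=
      pow_le_pow_left₀ (mul_nonneg hl0 hd0.le) hld 2
    have b1 : |u z * (2 * (z.2.1 - c.1)) + v z * (2 * (z.2.2 - c.2))| ≤ l z.1 * (2 * δ * r) := by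
      apply abs_le_of_sq_le_sq _ (by positivity)
      calc (u z * (2 * (z.2.1 - c.1)) + v z * (2 * (z.2.2 - c.2))) ^ 2
          ≤ (u z ^ 2 + v z ^ 2) * ((2 * (z.2.1 - c.1)) ^ 2 + (2 * (z.2.2 - c.2)) ^ 2) := by
            nlinarith [sq_nonneg (u z * (2 * (z.2.2 - c.2)) - v z * (2 * (z.2.1 - c.1)))]
        _ ≤ (l z.1 * r) ^ 2 * (2 * δ) ^ 2 :=
            mul_le_mul (huv'.trans hld2) hR (by positivity) (by positivity)
        _ = (l z.1 * (2 * δ * r)) ^ 2 := by ring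
    have hJz := hJ z hz
    have b2 : |3 * J z * (2 * (z.2.1 - c.1))| ≤ 6 := by
      have c1 : |2 * (z.2.1 - c.1)| ≤ 2 * δ := by
        apply abs_le_of_sq_le_sq _ (by positivity)
        nlinarith [sq_nonneg (2 * (z.2.2 - c.2))]
      rw [abs_mul, abs_of_pos (by linarith [hJz.1] : 0 < 3 * J z)]
      calc 3 * J z * |2 * (z.2.1 - c.1)| ≤ 3 * J z * (2 * δ) :=
            mul_le_mul_of_nonneg_left c1 (by linarith [hJz.1])
        _ ≤ 3 * (1 / δ) * (2 * δ) := by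
            apply mul_le_mul_of_nonneg_right _ (by positivity)
            linarith [hJz.2]
        _ = 6 := by field_simp; norm_num
    have e : (u z - 3 * J z) * (2 * (z.2.1 - c.1)) + v z * (2 * (z.2.2 - c.2))
        = (u z * (2 * (z.2.1 - c.1)) + v z * (2 * (z.2.2 - c.2)))
          - 3 * J z * (2 * (z.2.1 - c.1)) := by ring
    rw [e]
    refine (abs_sub _ _).trans ?_
    linarith

end Pool.Agent.J6H79.WP
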