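import Pool.Agent.Q176.WL.A3

/-! # Barriers for a fixed box near a wall

The sum of three exponential barriers for the transport-diffusion equation in a box near the wall
(`D` the distance to the wall, `R` the squared distance to the centre); `N`, `P` bound the total
displacements of `D` and of `R` by the flow. -/

set_option autoImplicit false

namespace Pool.Agent.J6H79.WP

open Set Filter Topology Pool.Agent.Q176.WL

/-- The parameters of the barrier. -/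
structure Pr where
  lam : ℝ
  ka : ℝ
  A1 : ℝ
  A3 : ℝ
  y1 : ℝ
  y2 : ℝ
  X0 : ℝ
  δ : ℝ

variable (q : Pr) (N P : ℝ → ℝ)

noncomputable def F1 (t D : ℝ) : ℝ := Real.exp (q.A1 * t + q.lam * (N t + q.y1 - D))

noncomputable def F2 (t D : ℝ) : ℝ := Real.exp (q.A1 * t + q.lam * (N t + D - q.y2))

noncomputable def F3 (t R : ℝ) : ℝ := Real.exp (q.A3 * t + q.ka * (P t + R - q.X0))

/-- The sum of the barriers. -/
noncomputable def Fs (t D R : ℝ) : ℝ := F1 q N t D + F2 q N t D + F3 q P t R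

variable {q N P}

lemma Fs_t {t D R n p : ℝ} (hN : HasDerivAt N n t) (hP : HasDerivAt P p t) :
    HasDerivAt (fun t => Fs q N P t D R)
      (F1 q N t D * (q.A1 + q.lam * n) + F2 q N t D * (q.A1 + q.lam * n)
       + F3 q P t R * (q.A3 + q.ka * p)) t := by
  have hid := hasDerivAt_id t
  have g1 : HasDerivAt (fun t => F1 q N t D)
      (F1 q N t D * (q.A1 * 1 + q.lam * n)) t :=
    ((hid.const_mul q.A1).add (((hN.add_const q.y1).sub_const D).const_mul q.lam)).exp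
  have g2 : HasDerivAt (fun t => F2 q N t D)
      (F2 q N t D * (q.A1 * 1 + q.lam * n)) t :=
    ((hid.const_mul q.A1).add (((hN.add_const D).sub_const q.y2).const_mul q.lam)).exp
  have g3 : HasDerivAt (fun t => F3 q P t R)
      (F3 q P t R * (q.A3 * 1 + q.ka * p)) t :=
    ((hid.const_mul q.A3).add (((hP.add_const R).sub_const q.X0).const_mul q.ka)).exp
  refine ((g1.add g2).add g3).congr_deriv ?_
  ring

/-- The derivative of the sum of the barriers along a line in space. -/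
noncomputable def Fd (q : Pr) (N P : ℝ → ℝ) (t D R D' R' : ℝ) : ℝ :=
  -(q.lam * D') * F1 q N t D + q.lam * D' * F2 q N t D + q.ka * R' * F3 q P t R

noncomputable def Fdd (q : Pr) (N P : ℝ → ℝ) (t D R D' R' D'' R'' : ℝ) : ℝ :=
  ((q.lam * D') ^ 2 - q.lam * D'') * F1 q N t D
    + ((q.lam * D') ^ 2 + q.lam * D'') * F2 q N t D
    + ((q.ka * R') ^ 2 + q.ka * R'') * F3 q P t R

lemma f1_s {D : ℝ → ℝ} {D' t s : ℝ} (hD : HasDerivAt D D' s) :
    HasDerivAt (fun s => F1 q N t (D s)) (-(q.lam * D') * F1 q N t (D s)) s := by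
  have := (((hD.const_sub (N t + q.y1)).const_mul q.lam).const_add (q.A1 * t)).exp
  refine this.congr_deriv ?_
  unfold F1; ring

lemma f2_s {D : ℝ → ℝ} {D' t s : ℝ} (hD : HasDerivAt D D' s) :
    HasDerivAt (fun s => F2 q N t (D s)) (q.lam * D' * F2 q N t (D s)) s := by
  have := ((((hD.const_add (N t)).sub_const q.y2).const_mul q.lam).const_add (q.A1 * t)).exp
  refine this.congr_deriv ?_
  unfold F2; ring

lemma f3_s {R : ℝ → ℝ} {R' t s : ℝ} (hR : HasDerivAt R R' s) :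
    HasDerivAt (fun s => F3 q P t (R s)) (q.ka * R' * F3 q P t (R s)) s := by
  have := ((((hR.const_add (P t)).sub_const q.X0).const_mul q.ka).const_add (q.A3 * t)).exp
  refine this.congr_deriv ?_
  unfold F3; ring

lemma Fs_s {D R : ℝ → ℝ} {D' R' t s : ℝ} (hD : HasDerivAt D D' s) (hR : HasDerivAt R R' s) :
    HasDerivAt (fun s => Fs q N P t (D s) (R s)) (Fd q N P t (D s) (R s) D' R') s := by
  exact ((f1_s hD).add (f2_s hD)).add (f3_s hR)

lemma Fd_s {D R D1 R1 : ℝ → ℝ} {D'' R'' t s : ℝ} (hD : HasDerivAt D (D1 s) s)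
    (hR : HasDerivAt R (R1 s) s) (hD1 : HasDerivAt D1 D'' s) (hR1 : HasDerivAt R1 R'' s) :
    HasDerivAt (fun s => Fd q N P t (D s) (R s) (D1 s) (R1 s))
      (Fdd q N P t (D s) (R s) (D1 s) (R1 s) D'' R'') s := by
  have a1 := ((hD1.const_mul q.lam).neg).mul (f1_s (q := q) (N := N) (t := t) hD)
  have a2 := (hD1.const_mul q.lam).mul (f2_s (q := q) (N := N) (t := t) hD)
  have a3 := (hR1.const_mul q.ka).mul (f3_s (q := q) (P := P) (t := t) hR)
  refine ((a1.add a2).add a3).congr_deriv ?_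
  unfold Fdd; simp only [Pi.neg_apply]; ring

/-- The sum of the barriers is a supersolution. -/
lemma super {t D R Dx Dy Rx Ry Dl n p u v : ℝ} (hlam : 0 ≤ q.lam) (hka : 0 ≤ q.ka)
    (_hδ : 0 < q.δ) (hdn : |u * Dx + v * Dy| ≤ n) (hdp : |u * Rx + v * Ry| ≤ p)
    (hg : Dx ^ 2 + Dy ^ 2 ≤ 1) (hR : Rx ^ 2 + Ry ^ 2 ≤ 4 * q.δ ^ 2) (hDl : |Dl| ≤ 1 / q.δ)
    (hA1 : q.lam ^ 2 + q.lam / q.δ ≤ q.A1)
    (hA3 : 4 * q.ka ^ 2 * q.δ ^ 2 + 4 * q.ka ≤ q.A3) {Dxx Dyy Rxx Ryy : ℝ}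
    (hDD : Dxx + Dyy = Dl) (hRR : Rxx + Ryy = 4) :
    0 ≤ (F1 q N t D * (q.A1 + q.lam * n) + F2 q N t D * (q.A1 + q.lam * n)
       + F3 q P t R * (q.A3 + q.ka * p))
      + u * Fd q N P t D R Dx Rx + v * Fd q N P t D R Dy Ry
      - Fdd q N P t D R Dx Rx Dxx Rxx - Fdd q N P t D R Dy Ry Dyy Ryy := by
  have p1 : 0 < F1 q N t D := Real.exp_pos _
  have p2 : 0 < F2 q N t D := Real.exp_pos _
  have p3 : 0 < F3 q P t R := Real.exp_pos _
  unfold Fd Fdd
  obtain ⟨d1, d2⟩ := abs_le.1 hdn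
  obtain ⟨d3, d4⟩ := abs_le.1 hdp
  obtain ⟨d5, d6⟩ := abs_le.1 hDl
  have a2 : q.lam ^ 2 * (Dx ^ 2 + Dy ^ 2) ≤ q.lam ^ 2 := by
    nlinarith [mul_le_mul_of_nonneg_left hg (sq_nonneg q.lam)]
  have e0 : q.lam / q.δ = q.lam * (1 / q.δ) := by ring
  have t1 : 0 ≤ q.A1 + q.lam * n - q.lam * (u * Dx + v * Dy)
      - q.lam ^ 2 * (Dx ^ 2 + Dy ^ 2) + q.lam * Dl := by
    have a1 : 0 ≤ q.lam * (n - (u * Dx + v * Dy)) := mul_nonneg hlam (by linarith)
    have a3 : q.lam * (-(1 / q.δ)) ≤ q.lam * Dl := mul_le_mul_of_nonneg_left d5 hlam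
    linarith
  have t2 : 0 ≤ q.A1 + q.lam * n + q.lam * (u * Dx + v * Dy)
      - q.lam ^ 2 * (Dx ^ 2 + Dy ^ 2) - q.lam * Dl := by
    have a1 : 0 ≤ q.lam * (n + (u * Dx + v * Dy)) := mul_nonneg hlam (by linarith)
    have a3 : q.lam * Dl ≤ q.lam * (1 / q.δ) := mul_le_mul_of_nonneg_left d6 hlam
    linarith
  have t3 : 0 ≤ q.A3 + q.ka * p + q.ka * (u * Rx + v * Ry)
      - q.ka ^ 2 * (Rx ^ 2 + Ry ^ 2) - q.ka * 4 := by
    have a1 : 0 ≤ q.ka * (p + (u * Rx + v * Ry)) := mul_nonneg hka (by linarith)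
    have a3 : q.ka ^ 2 * (Rx ^ 2 + Ry ^ 2) ≤ q.ka ^ 2 * (4 * q.δ ^ 2) :=
      mul_le_mul_of_nonneg_left hR (sq_nonneg _)
    linarith
  have s1 := mul_nonneg p1.le t1
  have s2 := mul_nonneg p2.le t2
  have s3 := mul_nonneg p3.le t3
  have e : (F1 q N t D * (q.A1 + q.lam * n) + F2 q N t D * (q.A1 + q.lam * n)
       + F3 q P t R * (q.A3 + q.ka * p))
      + u * (-(q.lam * Dx) * F1 q N t D + q.lam * Dx * F2 q N t D + q.ka * Rx * F3 q P t R)
      + v * (-(q.lam * Dy) * F1 q N t D + q.lam * Dy * F2 q N t D + q.ka * Ry * F3 q P t R)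
      - (((q.lam * Dx) ^ 2 - q.lam * Dxx) * F1 q N t D
        + ((q.lam * Dx) ^ 2 + q.lam * Dxx) * F2 q N t D
        + ((q.ka * Rx) ^ 2 + q.ka * Rxx) * F3 q P t R)
      - (((q.lam * Dy) ^ 2 - q.lam * Dyy) * F1 q N t D
        + ((q.lam * Dy) ^ 2 + q.lam * Dyy) * F2 q N t D
        + ((q.ka * Ry) ^ 2 + q.ka * Ryy) * F3 q P t R)
      = F1 q N t D * (q.A1 + q.lam * n - q.lam * (u * Dx + v * Dy)
          - q.lam ^ 2 * (Dx ^ 2 + Dy ^ 2) + q.lam * (Dxx + Dyy))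
        + F2 q N t D * (q.A1 + q.lam * n + q.lam * (u * Dx + v * Dy)
          - q.lam ^ 2 * (Dx ^ 2 + Dy ^ 2) - q.lam * (Dxx + Dyy))
        + F3 q P t R * (q.A3 + q.ka * p + q.ka * (u * Rx + v * Ry)
          - q.ka ^ 2 * (Rx ^ 2 + Ry ^ 2) - q.ka * (Rxx + Ryy)) := by ring
  rw [e, hDD, hRR]
  linarith

end Pool.Agent.J6H79.WP
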