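import Pool.Agent.J6H79.WP.Wall

/-! # A flat no-slip wall: from bounds for the gradient to bounds for the velocity -/

set_option autoImplicit false

namespace Pool.Agent.J6H79.WP

open Set Filter Topology Pool.Agent.Q176.WL

/-- The open upper half plane. -/
def HP : Set (ℝ × ℝ) := {z | 0 < z.2}

lemma isWall_half (c1 : ℝ) {δ : ℝ} (hδ : 0 < δ) : IsWall HP (c1, 0) δ (fun z => z.2) := by
  have h1 : ∀ z : ℝ × ℝ, dx (fun z => z.2) z = 0 := by
    intro z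
    unfold dx
    rw [show (fun z : ℝ × ℝ => z.2) = (ContinuousLinearMap.snd ℝ ℝ ℝ : ℝ × ℝ → ℝ) from rfl,
      ContinuousLinearMap.fderiv]
    simp
  have h2 : ∀ z : ℝ × ℝ, dy (fun z => z.2) z = 1 := by
    intro z
    unfold dy
    rw [show (fun z : ℝ × ℝ => z.2) = (ContinuousLinearMap.snd ℝ ℝ ℝ : ℝ × ℝ → ℝ) from rfl,
      ContinuousLinearMap.fderiv]
    simp
  refine { isOpen := isOpen_lt continuous_const continuous_snd, radius_pos := hδ,
           cont := continuous_snd.continuousOn, pos := fun z hz => hz.1,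
           zero := ?_, smooth := contDiff_snd.contDiffOn, grad := ?_, lap := ?_ }
  · intro z hz _
    have := frontier_lt_subset_eq (continuous_const (y := (0:ℝ))) (continuous_snd (X := ℝ) (Y := ℝ)) hz
    exact Eq.symm this
  · intro z _
    rw [h1, h2]; norm_num
  · intro z _
    have e1 : dx (fun z : ℝ × ℝ => z.2) = fun _ => 0 := funext h1
    have e2 : dy (fun z : ℝ × ℝ => z.2) = fun _ => 1 := funext h2
    rw [e1, e2]
    simp only [dx, dy, fderiv_fun_const, Pi.zero_apply, zero_apply, add_zero,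
      abs_zero]
    positivity

variable {c1 δ : ℝ}

lemma mem_reg_half {x y : ℝ} : ((x, y) : ℝ × ℝ) ∈ Reg HP (c1, 0) δ ↔
    0 < y ∧ (x - c1) ^ 2 + y ^ 2 < δ ^ 2 := by
  simp [Reg, HP, dsq]

lemma down {x y s : ℝ} (h : ((x, y) : ℝ × ℝ) ∈ Reg HP (c1, 0) δ) (hs : 0 < s) (hsy : s ≤ y) :
    ((x, s) : ℝ × ℝ) ∈ Reg HP (c1, 0) δ := by
  rw [mem_reg_half] at h ⊢
  refine ⟨hs, ?_⟩
  nlinarith [h.1, h.2]

/-- A function on `(0, y]` that tends to zero at `0` and has a derivative bounded by `C`. -/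
lemma mv {g g' : ℝ → ℝ} {y C : ℝ} (hy : 0 < y) (hC : 0 ≤ C)
    (hg : ∀ s, 0 < s → s ≤ y → HasDerivAt g (g' s) s) (hb : ∀ s, 0 < s → s ≤ y → |g' s| ≤ C)
    (h0 : Tendsto g (𝓝[>] 0) (𝓝 0)) : |g y| ≤ C * y := by
  have key : ∀ᶠ s in 𝓝[>] (0:ℝ), |g y - g s| ≤ C * y := by
    filter_upwards [Ioo_mem_nhdsGT hy] with s hs
    have hconv : Convex ℝ (Icc s y) := convex_Icc s y
    have := hconv.norm_image_sub_le_of_norm_hasDerivWithin_le (f := g) (f' := g') (C := C)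
      (fun x hx => (hg x (hs.1.trans_le hx.1) hx.2).hasDerivWithinAt)
      (fun x hx => by rw [Real.norm_eq_abs]; exact hb x (hs.1.trans_le hx.1) hx.2)
      (left_mem_Icc.2 hs.2.le) (right_mem_Icc.2 hs.2.le)
    rw [Real.norm_eq_abs, Real.norm_eq_abs,
      abs_of_pos (show (0:ℝ) < y - s by linarith [hs.2])] at this
    refine this.trans ?_
    apply mul_le_mul_of_nonneg_left _ hC
    linarith [hs.1]
  have hlim : Tendsto (fun s => |g y - g s|) (𝓝[>] 0) (𝓝 |g y - 0|) :=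
    (h0.const_sub (g y)).abs
  rw [sub_zero] at hlim
  exact le_of_tendsto hlim key

/-- The speed near the wall. -/
lemma speed {T : ℝ} {u v : E → ℝ}
    (du : ∀ z ∈ Ioo 0 T ×ˢ Reg HP (c1, 0) δ, DifferentiableAt ℝ u z)
    (dv : ∀ z ∈ Ioo 0 T ×ˢ Reg HP (c1, 0) δ, DifferentiableAt ℝ v z)
    (nu : ∀ t ∈ Ioo 0 T, ∀ x, |x - c1| < δ → Tendsto (fun y => u (t, x, y)) (𝓝[>] 0) (𝓝 0))
    (nv : ∀ t ∈ Ioo 0 T, ∀ x, |x - c1| < δ → Tendsto (fun y => v (t, x, y)) (𝓝[>] 0) (𝓝 0))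
    (hδ : 0 < δ) {l : ℝ → ℝ} (hl : ∀ t ∈ Ioo 0 T, 0 ≤ l t)
    (hg : ∀ z ∈ Ioo 0 T ×ˢ Reg HP (c1, 0) δ, pd ey u z ^ 2 + pd ey v z ^ 2 ≤ l z.1 ^ 2) :
    ∀ z ∈ Ioo 0 T ×ˢ Reg HP (c1, 0) δ, u z ^ 2 + v z ^ 2 ≤ (l z.1 * z.2.2) ^ 2 := by
  rintro ⟨t, x, y⟩ ⟨ht, hz⟩
  simp only at ht hz ⊢
  have hy : 0 < y := (mem_reg_half.1 hz).1
  have hx : |x - c1| < δ := by
    apply abs_lt_of_sq_lt_sq _ hδ.le
    nlinarith [(mem_reg_half.1 hz).2]
  set α := u (t, x, y) with hα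
  set β := v (t, x, y) with hβ
  have hl0 := hl t ht
  set ρ := √(α ^ 2 + β ^ 2) with hρ
  have hρ0 : 0 ≤ ρ := Real.sqrt_nonneg _
  have hρ2 : ρ ^ 2 = α ^ 2 + β ^ 2 := Real.sq_sqrt (by positivity)
  have h := mv (g := fun s => α * u (t, x, s) + β * v (t, x, s))
    (g' := fun s => α * pd ey u (t, x, s) + β * pd ey v (t, x, s)) (y := y) (C := ρ * l t) hy
    (by positivity) (fun s h1 h2 => by
      have hm : ((t, x, s) : E) ∈ Ioo 0 T ×ˢ Reg HP (c1, 0) δ := ⟨ht, down hz h1 h2⟩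
      exact ((slice_y (du _ hm)).const_mul α).add ((slice_y (dv _ hm)).const_mul β))
    (fun s h1 h2 => by
      have hm : ((t, x, s) : E) ∈ Ioo 0 T ×ˢ Reg HP (c1, 0) δ := ⟨ht, down hz h1 h2⟩
      have h3 := hg _ hm
      simp only at h3
      apply abs_le_of_sq_le_sq _ (by positivity)
      calc (α * pd ey u (t, x, s) + β * pd ey v (t, x, s)) ^ 2
          ≤ (α ^ 2 + β ^ 2) * (pd ey u (t, x, s) ^ 2 + pd ey v (t, x, s) ^ 2) := by
            nlinarith [sq_nonneg (α * pd ey v (t, x, s) - β * pd ey u (t, x, s))]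
        _ ≤ (α ^ 2 + β ^ 2) * l t ^ 2 := mul_le_mul_of_nonneg_left h3 (by positivity)
        _ = (ρ * l t) ^ 2 := by rw [mul_pow, hρ2])
    (by
      have := ((nu t ht x hx).const_mul α).add ((nv t ht x hx).const_mul β)
      simpa using this)
  rw [← hα, ← hβ] at h
  have e : α * α + β * β = ρ ^ 2 := by rw [hρ2]; ring
  rw [e, abs_of_nonneg (sq_nonneg ρ)] at h
  have h5 : ρ ≤ l t * y := by
    rcases eq_or_lt_of_le hρ0 with h0 | h0
    · rw [← h0]; positivity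
    · nlinarith
  rw [← hρ2]
  exact pow_le_pow_left₀ hρ0 h5 2

/-- The tangential derivative of the tangential velocity near the wall. -/
lemma tang {T : ℝ} {u : E → ℝ}
    (du : ∀ z ∈ Ioo 0 T ×ˢ Reg HP (c1, 0) δ, DifferentiableAt ℝ u z)
    (nu : ∀ t ∈ Ioo 0 T, ∀ x, |x - c1| < δ → Tendsto (fun y => u (t, x, y)) (𝓝[>] 0) (𝓝 0))
    (hδ : 0 < δ) {h : ℝ → ℝ} (hh : ∀ t ∈ Ioo 0 T, 0 ≤ h t) {θ : ℝ} (hθ : 0 < θ)
    (hol : ∀ t ∈ Ioo 0 T, ∀ z ∈ Reg HP (c1, 0) δ, ∀ z' ∈ Reg HP (c1, 0) δ,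
      |pd ex u (t, z) - pd ex u (t, z')| ≤ h t * √(dsq z z') ^ θ) :
    ∀ z ∈ Ioo 0 T ×ˢ Reg HP (c1, 0) δ, |pd ex u z| ≤ h z.1 * z.2.2 ^ θ := by
  rintro ⟨t, x, y⟩ ⟨ht, hz⟩
  simp only at ht hz ⊢
  have hy : 0 < y := (mem_reg_half.1 hz).1
  have hx2 : (x - c1) ^ 2 < δ ^ 2 := by nlinarith [(mem_reg_half.1 hz).2]
  have hx : |x - c1| < δ := abs_lt_of_sq_lt_sq hx2 hδ.le
  have hht := hh t ht
  -- for small s > 0
  have step : ∀ᶠ s in 𝓝[>] (0:ℝ), |pd ex u (t, x, y)| ≤ h t * s ^ θ + h t * y ^ θ := by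
    have hs1 : ∀ᶠ s in 𝓝[>] (0:ℝ), |x - c1| + s < δ := by
      have : Ioo (0:ℝ) (δ - |x - c1|) ∈ 𝓝[>] (0:ℝ) := Ioo_mem_nhdsGT (by linarith)
      filter_upwards [this] with s hs
      linarith [hs.2]
    filter_upwards [hs1, self_mem_nhdsWithin] with s hs hs0
    have hs0' : 0 < s := hs0
    -- small heights
    have hy' : ∀ᶠ y' in 𝓝[>] (0:ℝ), |pd ex u (t, x, y)| ≤
        |u (t, x + s, y') - u (t, x, y')| / s + h t * s ^ θ + h t * y ^ θ := by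
      set η := |x - c1| + s with hη
      have hη0 : 0 < η := by rw [hη]; positivity
      have hgap : 0 < δ ^ 2 - η ^ 2 := by nlinarith
      have hev : ∀ᶠ y' in 𝓝[>] (0:ℝ), y' ^ 2 < δ ^ 2 - η ^ 2 := by
        have : Tendsto (fun y' : ℝ => y' ^ 2) (𝓝[>] 0) (𝓝 (0 ^ 2)) :=
          ((continuous_pow 2).tendsto 0).mono_left nhdsWithin_le_nhds
        exact this.eventually_lt_const (by simpa using hgap)
      filter_upwards [hev, self_mem_nhdsWithin, Ioo_mem_nhdsGT hy] with y' h1 h2 h3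
      have h2' : 0 < y' := h2
      have mem : ∀ σ ∈ Icc x (x + s), ((σ, y') : ℝ × ℝ) ∈ Reg HP (c1, 0) δ := by
        intro σ hσ
        rw [mem_reg_half]
        refine ⟨h2', ?_⟩
        have a1 : |σ - c1| ≤ η := by
          have : σ - c1 = (x - c1) + (σ - x) := by ring
          rw [this]
          refine (abs_add_le _ _).trans ?_
          rw [abs_of_nonneg (by linarith [hσ.1] : 0 ≤ σ - x)]
          linarith [hσ.2]
        have a2 : (σ - c1) ^ 2 ≤ η ^ 2 := by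
          rw [← sq_abs]; exact pow_le_pow_left₀ (abs_nonneg _) a1 2
        linarith
      have hmvt := exists_hasDerivAt_eq_slope (fun σ => u (t, σ, y'))
        (fun σ => pd ex u (t, σ, y')) (a := x) (b := x + s) (by linarith)
        (fun σ hσ => (slice_x (du (t, σ, y') ⟨ht, mem σ hσ⟩)).continuousAt.continuousWithinAt)
        (fun σ hσ => slice_x (du (t, σ, y') ⟨ht, mem σ (Ioo_subset_Icc_self hσ)⟩))
      obtain ⟨σ, hσ, hslope⟩ := hmvt
      have b1 := hol t ht (x, y) hz (x, y') (down hz h2' h3.2.le)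
      have b2 := hol t ht (x, y') (down hz h2' h3.2.le) (σ, y') (mem σ (Ioo_subset_Icc_self hσ))
      have d1 : √(dsq (x, y) (x, y')) = y - y' := by
        have : dsq (x, y) (x, y') = (y - y') ^ 2 := by simp [dsq]
        rw [this, Real.sqrt_sq (by linarith [h3.2])]
      have d2 : √(dsq (x, y') (σ, y')) = σ - x := by
        have : dsq (x, y') (σ, y') = (σ - x) ^ 2 := by simp only [dsq]; ring
        rw [this, Real.sqrt_sq (by linarith [hσ.1])]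
      rw [d1] at b1
      rw [d2] at b2
      have c1' : h t * (y - y') ^ θ ≤ h t * y ^ θ :=
        mul_le_mul_of_nonneg_left
          (Real.rpow_le_rpow (by linarith [h3.2]) (by linarith) hθ.le) hht
      have c2' : h t * (σ - x) ^ θ ≤ h t * s ^ θ :=
        mul_le_mul_of_nonneg_left
          (Real.rpow_le_rpow (by linarith [hσ.1]) (by linarith [hσ.2]) hθ.le) hht
      have e3 : |pd ex u (t, σ, y')| = |u (t, x + s, y') - u (t, x, y')| / s := by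
        rw [hslope]
        rw [abs_div, show x + s - x = s by ring, abs_of_pos hs0']
      have t1 : |pd ex u (t, x, y)| ≤ |pd ex u (t, x, y) - pd ex u (t, x, y')|
          + |pd ex u (t, x, y') - pd ex u (t, σ, y')| + |pd ex u (t, σ, y')| := by
        have := abs_add_three (pd ex u (t, x, y) - pd ex u (t, x, y'))
          (pd ex u (t, x, y') - pd ex u (t, σ, y')) (pd ex u (t, σ, y'))
        have e : pd ex u (t, x, y) - pd ex u (t, x, y') + (pd ex u (t, x, y') - pd ex u (t, σ, y'))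
          + pd ex u (t, σ, y') = pd ex u (t, x, y) := by ring
        rwa [e] at this
      linarith
    have hxs : |x + s - c1| < δ := by
      refine lt_of_le_of_lt ?_ hs
      have : x + s - c1 = (x - c1) + s := by ring
      rw [this]
      refine (abs_add_le _ _).trans ?_
      rw [abs_of_pos hs0']
    have hlim : Tendsto (fun y' => |u (t, x + s, y') - u (t, x, y')| / s + h t * s ^ θ + h t * y ^ θ)
        (𝓝[>] 0) (𝓝 (|0 - 0| / s + h t * s ^ θ + h t * y ^ θ)) :=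
      (((((nu t ht _ hxs).sub (nu t ht x hx)).abs).div_const s).add_const _).add_const _
    have := ge_of_tendsto hlim hy'
    simpa using this
  have hlim : Tendsto (fun s : ℝ => h t * s ^ θ + h t * y ^ θ) (𝓝[>] 0)
      (𝓝 (h t * 0 ^ θ + h t * y ^ θ)) := by
    have hc : Continuous (fun s : ℝ => s ^ θ) := Real.continuous_rpow_const hθ.le
    exact (((hc.tendsto 0).mono_left nhdsWithin_le_nhds).const_mul _).add_const _
  have := ge_of_tendsto hlim step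
  rw [Real.zero_rpow hθ.ne'] at this
  simpa using this

/-- The alternative for a flat wall. -/
theorem flat {T : ℝ} (hδ : 0 < δ) (hT : 0 < T) {u v p w : E → ℝ}
    (hns : IsNS (Ioo 0 T ×ˢ Reg HP (c1, 0) δ) u v p)
    (hw : ∀ z ∈ Ioo 0 T ×ˢ Reg HP (c1, 0) δ, w z = pd ex v z - pd ey u z)
    (hwc : ContinuousOn w (Icc 0 T ×ˢ Reg HP (c1, 0) δ))
    (nu : ∀ t ∈ Ioo 0 T, ∀ x, |x - c1| < δ → Tendsto (fun y => u (t, x, y)) (𝓝[>] 0) (𝓝 0))
    (nv : ∀ t ∈ Ioo 0 T, ∀ x, |x - c1| < δ → Tendsto (fun y => v (t, x, y)) (𝓝[>] 0) (𝓝 0))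
    {L l H h : ℝ → ℝ} (hLc : ContinuousOn L (Icc 0 T)) (hL0 : L 0 = 0)
    (hLd : ∀ t ∈ Ioo 0 T, HasDerivAt L (l t) t) (hl : ∀ t ∈ Ioo 0 T, 0 ≤ l t)
    (hHc : ContinuousOn H (Icc 0 T)) (hH0 : H 0 = 0)
    (hHd : ∀ t ∈ Ioo 0 T, HasDerivAt H (h t) t) (hh : ∀ t ∈ Ioo 0 T, 0 ≤ h t)
    {θ : ℝ} (hθ : 0 < θ)
    (hg : ∀ z ∈ Ioo 0 T ×ˢ Reg HP (c1, 0) δ, pd ey u z ^ 2 + pd ey v z ^ 2 ≤ l z.1 ^ 2)
    (hol : ∀ t ∈ Ioo 0 T, ∀ z ∈ Reg HP (c1, 0) δ, ∀ z' ∈ Reg HP (c1, 0) δ,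
      |pd ex u (t, z) - pd ex u (t, z')| ≤ h t * √(dsq z z') ^ θ)
    {K a : ℝ} (ha : 0 < a) (haK : a ≤ K) (hK : ∀ z ∈ Ioo 0 T ×ˢ Reg HP (c1, 0) δ, |w z| ≤ K)
    (h0 : ∀ z ∈ Reg HP (c1, 0) δ, a ≤ w (0, z)) {r : ℝ} (hr : 0 < r) (hrδ : r ≤ δ / 2)
    (hLT : L T ≤ δ / (8 * r)) (hHT : H T * r ^ θ ≤ 1 / 5)
    {z : ℝ × ℝ} (hz : z ∈ Reg HP (c1, 0) δ)
    (hz1 : dsq z (c1, 0) ≤ δ ^ 2 / 4) (hz2 : z.2 = 3 * r / 5) :
    a - 7 * K * Real.exp (-(r ^ 2 / (100 * T))) ≤ w (T, z) := by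
  have hwall := isWall_half c1 hδ
  have hOp : IsOpen (Ioo 0 T ×ˢ Reg HP (c1, 0) δ) := isOpen_Ioo.prod (isOpen_Reg hwall)
  obtain ⟨hw2, heq⟩ := vorticity_eq hOp hns hw
  have su : ContDiffOn ℝ ((3 : ℕ) : ℕ∞) u (Ioo 0 T ×ˢ Reg HP (c1, 0) δ) := by
    exact_mod_cast hns.smooth_u
  have sv : ContDiffOn ℝ ((3 : ℕ) : ℕ∞) v (Ioo 0 T ×ˢ Reg HP (c1, 0) δ) := by
    exact_mod_cast hns.smooth_v
  have du : ∀ z ∈ Ioo 0 T ×ˢ Reg HP (c1, 0) δ, DifferentiableAt ℝ u z := fun z hz =>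
    diffAt hOp (by norm_num) su hz
  have dv : ∀ z ∈ Ioo 0 T ×ˢ Reg HP (c1, 0) δ, DifferentiableAt ℝ v z := fun z hz =>
    diffAt hOp (by norm_num) sv hz
  have hsp := speed du dv nu nv hδ hl hg
  have htg := tang du nu hδ hh hθ hol
  have e1 : ∀ z : ℝ × ℝ, dx (fun z => z.2) z = 0 := by
    intro z
    unfold dx
    rw [show (fun z : ℝ × ℝ => z.2) = (ContinuousLinearMap.snd ℝ ℝ ℝ : ℝ × ℝ → ℝ) from rfl,
      ContinuousLinearMap.fderiv]
    simp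
  have e2 : ∀ z : ℝ × ℝ, dy (fun z => z.2) z = 1 := by
    intro z
    unfold dy
    rw [show (fun z : ℝ × ℝ => z.2) = (ContinuousLinearMap.snd ℝ ℝ ℝ : ℝ × ℝ → ℝ) from rfl,
      ContinuousLinearMap.fderiv]
    simp
  refine wall hwall hT hwc hw2 heq hLc hL0 hLd hl hHc hH0 hHd hh hθ.le hsp ?_ ha haK hK h0 hr hrδ
    hLT hHT hz hz1 hz2
  rintro ⟨t, x, y⟩ ⟨ht, hz⟩
  simp only at ht hz ⊢
  rw [e1, e2, mul_zero, mul_one, zero_add]
  have hy : 0 < y := (mem_reg_half.1 hz).1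
  have hx : |x - c1| < δ := by
    apply abs_lt_of_sq_lt_sq _ hδ.le
    nlinarith [(mem_reg_half.1 hz).2]
  have hht := hh t ht
  have key := mv (g := fun s => v (t, x, s)) (g' := fun s => pd ey v (t, x, s)) (y := y)
    (C := h t * y ^ θ) hy (by positivity)
    (fun s h1 h2 => slice_y (dv _ ⟨ht, down hz h1 h2⟩))
    (fun s h1 h2 => by
      have hm : ((t, x, s) : E) ∈ Ioo 0 T ×ˢ Reg HP (c1, 0) δ := ⟨ht, down hz h1 h2⟩
      have h3 := hns.div _ hm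
      have h4 := htg _ hm
      simp only at h4
      have h5 : pd ey v (t, x, s) = -pd ex u (t, x, s) := by linarith
      rw [h5, abs_neg]
      refine h4.trans (mul_le_mul_of_nonneg_left ?_ hht)
      exact Real.rpow_le_rpow h1.le h2 hθ.le)
    (nv t ht x hx)
  have e3 : y ^ (1 + θ) = y ^ θ * y := by
    rw [Real.rpow_add hy, Real.rpow_one]; ring
  rw [e3, ← mul_assoc]
  exact key

end Pool.Agent.J6H79.WP
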