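import Pool.Agent.J6H79.WP.Cmp

/-! # The vorticity near a wall at the final time -/

set_option autoImplicit false

namespace Pool.Agent.J6H79.WP

open Set Filter Topology Pool.Agent.Q176.WL

/-- The parameters of the barrier: the box is `r / 5 ≤ d ≤ r`. -/
noncomputable def qr (δ T r : ℝ) : Pr where
  lam := r / (10 * T)
  ka := 1 / (32 * T)
  A1 := (r / (10 * T)) ^ 2 + r / (10 * T) / δ
  A3 := 4 * (1 / (32 * T)) ^ 2 * δ ^ 2 + 4 * (1 / (32 * T))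
  y1 := r / 5
  y2 := r
  X0 := 3 * δ ^ 2 / 4
  δ := δ

lemma exp_le_inv {x : ℝ} (h : x < 1) : Real.exp x ≤ 1 / (1 - x) := by
  have h1 : 1 - x ≤ Real.exp (-x) := by
    have := Real.add_one_le_exp (-x)
    linarith
  have h2 : 0 < 1 - x := by linarith
  rw [le_div_iff₀ h2]
  calc Real.exp x * (1 - x) ≤ Real.exp x * Real.exp (-x) :=
        mul_le_mul_of_nonneg_left h1 (Real.exp_pos _).le
    _ = 1 := by rw [← Real.exp_add]; simp

lemma eval {δ T r R : ℝ} {N P : ℝ → ℝ} (hδ : 0 < δ) (hT : 0 < T) (hr : 0 < r) (hrδ : r ≤ δ / 2)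
    (hN : N T ≤ r / 5) (hP : P T ≤ δ ^ 2 / 4) (hR : R ≤ δ ^ 2 / 4) :
    Fs (qr δ T r) N P T (3 * r / 5) R ≤ 7 / 2 * Real.exp (-(r ^ 2 / (100 * T))) := by
  set S := r ^ 2 / (100 * T) with hS
  have hTne : T ≠ 0 := hT.ne'
  have hδne : δ ≠ 0 := hδ.ne'
  have k1 : r / (10 * T) * (r / 5) = 2 * S := by rw [hS]; field_simp; ring
  have k2 : (r / (10 * T)) ^ 2 * T = S := by rw [hS]; field_simp; ring
  have k3 : r / (10 * T) / δ * T ≤ 1 / 20 := by
    have e : r / (10 * T) / δ * T = r / (10 * δ) := by field_simp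
    rw [e, div_le_iff₀ (by positivity)]
    linarith
  have hlam : 0 ≤ r / (10 * T) := by positivity
  have m1 : r / (10 * T) * (N T) ≤ r / (10 * T) * (r / 5) := mul_le_mul_of_nonneg_left hN hlam
  have a1 : F1 (qr δ T r) N T (3 * r / 5) ≤ Real.exp (1 / 20) * Real.exp (-S) := by
    rw [← Real.exp_add]
    apply Real.exp_le_exp.2
    simp only [qr]
    have e : r / (10 * T) * (N T + r / 5 - 3 * r / 5)
        = r / (10 * T) * (N T) - 2 * (r / (10 * T) * (r / 5)) := by ring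
    rw [e, k1]
    have e2 : ((r / (10 * T)) ^ 2 + r / (10 * T) / δ) * T
        = (r / (10 * T)) ^ 2 * T + r / (10 * T) / δ * T := by ring
    rw [e2, k2]
    rw [k1] at m1
    linarith
  have a2 : F2 (qr δ T r) N T (3 * r / 5) ≤ Real.exp (1 / 20) * Real.exp (-S) := by
    rw [← Real.exp_add]
    apply Real.exp_le_exp.2
    simp only [qr]
    have e : r / (10 * T) * (N T + 3 * r / 5 - r)
        = r / (10 * T) * (N T) - 2 * (r / (10 * T) * (r / 5)) := by ring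
    rw [e, k1]
    have e2 : ((r / (10 * T)) ^ 2 + r / (10 * T) / δ) * T
        = (r / (10 * T)) ^ 2 * T + r / (10 * T) / δ * T := by ring
    rw [e2, k2]
    rw [k1] at m1
    linarith
  have a3 : F3 (qr δ T r) P T R ≤ Real.exp (1 / 8) * Real.exp (-S) := by
    rw [← Real.exp_add]
    apply Real.exp_le_exp.2
    simp only [qr]
    have hk : 0 ≤ 1 / (32 * T) := by positivity
    have e1 : 1 / (32 * T) * (P T + R - 3 * δ ^ 2 / 4) ≤ 1 / (32 * T) * (-(δ ^ 2 / 4)) :=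
      mul_le_mul_of_nonneg_left (by linarith) hk
    have e2 : (4 * (1 / (32 * T)) ^ 2 * δ ^ 2 + 4 * (1 / (32 * T))) * T
        = δ ^ 2 / (256 * T) + 1 / 8 := by
      field_simp; ring
    have e3 : 1 / (32 * T) * (-(δ ^ 2 / 4)) = -(2 * (δ ^ 2 / (256 * T))) := by
      field_simp; ring
    have e4 : S ≤ δ ^ 2 / (256 * T) := by
      rw [hS, div_le_div_iff₀ (by positivity) (by positivity)]
      have : r ^ 2 ≤ δ ^ 2 / 4 := by nlinarith
      nlinarith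
    rw [e2]
    rw [e3] at e1
    linarith
  have b1 : Real.exp (1 / 20) ≤ 20 / 19 := by
    have := exp_le_inv (x := 1 / 20) (by norm_num)
    norm_num at this ⊢
    exact this
  have b2 : Real.exp (1 / 8) ≤ 8 / 7 := by
    have := exp_le_inv (x := 1 / 8) (by norm_num)
    norm_num at this ⊢
    exact this
  have hE : 0 < Real.exp (-S) := Real.exp_pos _
  have c1 : Real.exp (1 / 20) * Real.exp (-S) ≤ 20 / 19 * Real.exp (-S) :=
    mul_le_mul_of_nonneg_right b1 hE.le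
  have c2 : Real.exp (1 / 8) * Real.exp (-S) ≤ 8 / 7 * Real.exp (-S) :=
    mul_le_mul_of_nonneg_right b2 hE.le
  unfold Fs
  nlinarith

lemma mono_nonneg {T : ℝ} (hT : 0 < T) {L l : ℝ → ℝ} (hLc : ContinuousOn L (Icc 0 T))
    (hL0 : L 0 = 0) (hLd : ∀ t ∈ Ioo 0 T, HasDerivAt L (l t) t) (hl : ∀ t ∈ Ioo 0 T, 0 ≤ l t) :
    ∀ t ∈ Icc 0 T, 0 ≤ L t := by
  have hmono : MonotoneOn L (Icc 0 T) := by
    apply monotoneOn_of_deriv_nonneg (convex_Icc 0 T) hLc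
    · intro t ht
      rw [interior_Icc] at ht
      exact (hLd t ht).differentiableAt.differentiableWithinAt
    · intro t ht
      rw [interior_Icc] at ht
      rw [(hLd t ht).deriv]
      exact hl t ht
  intro t ht
  have := hmono (left_mem_Icc.2 hT.le) ht ht.1
  rwa [hL0] at this

/-- The final bound for a solution `w` of the transport-diffusion equation. -/
theorem final {Ω : Set (ℝ × ℝ)} {c : ℝ × ℝ} {δ : ℝ} {d : ℝ × ℝ → ℝ} (hd : IsWall Ω c δ d)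
    {T : ℝ} (hT : 0 < T) {u v w : E → ℝ}
    (hwc : ContinuousOn w (Icc 0 T ×ˢ Reg Ω c δ))
    (hw2 : ContDiffOn ℝ ((2 : ℕ) : ℕ∞) w (Ioo 0 T ×ˢ Reg Ω c δ))
    (heq : ∀ z ∈ Ioo 0 T ×ˢ Reg Ω c δ, pd et w z + u z * pd ex w z + v z * pd ey w z
      = pd ex (pd ex w) z + pd ey (pd ey w) z)
    {r : ℝ} (hr : 0 < r) (hrδ : r ≤ δ / 2)
    {N P n p : ℝ → ℝ} (hNc : ContinuousOn N (Icc 0 T)) (hPc : ContinuousOn P (Icc 0 T))
    (hN0 : ∀ t ∈ Icc 0 T, 0 ≤ N t) (hP0 : ∀ t ∈ Icc 0 T, 0 ≤ P t)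
    (hNd : ∀ t ∈ Ioo 0 T, HasDerivAt N (n t) t) (hPd : ∀ t ∈ Ioo 0 T, HasDerivAt P (p t) t)
    (hNT : N T ≤ r / 5) (hPT : P T ≤ δ ^ 2 / 4)
    (hn : ∀ z ∈ Ioo 0 T ×ˢ Reg Ω c δ, r / 5 ≤ d z.2 → d z.2 ≤ r →
      |u z * dx d z.2 + v z * dy d z.2| ≤ n z.1)
    (hp : ∀ z ∈ Ioo 0 T ×ˢ Reg Ω c δ, r / 5 ≤ d z.2 → d z.2 ≤ r →
      |u z * (2 * (z.2.1 - c.1)) + v z * (2 * (z.2.2 - c.2))| ≤ p z.1)
    {K a : ℝ} (ha : 0 < a) (haK : a ≤ K) (hK : ∀ z ∈ Ioo 0 T ×ˢ Reg Ω c δ, |w z| ≤ K)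
    (h0 : ∀ z ∈ Reg Ω c δ, a ≤ w (0, z)) {z : ℝ × ℝ} (hz : z ∈ Reg Ω c δ)
    (hz1 : dsq z c ≤ δ ^ 2 / 4) (hz2 : d z = 3 * r / 5) :
    a - 7 * K * Real.exp (-(r ^ 2 / (100 * T))) ≤ w (T, z) := by
  have hδ := hd.radius_pos
  have hK0 : 0 < K := ha.trans_le haK
  have mem_T : ((T, z) : E) ∈ Icc 0 T ×ˢ Reg Ω c δ := ⟨right_mem_Icc.2 hT.le, hz⟩
  have hlim : Tendsto (fun t : ℝ => w (t, z)) (𝓝[Ioo 0 T] T) (𝓝 (w (T, z))) := by
    have h1 : ContinuousWithinAt w (Icc 0 T ×ˢ Reg Ω c δ) (T, z) := hwc _ mem_T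
    have h2 : Tendsto (fun t : ℝ => ((t, z) : E)) (𝓝[Ioo 0 T] T)
        (𝓝[Icc 0 T ×ˢ Reg Ω c δ] (T, z)) := by
      apply tendsto_nhdsWithin_of_tendsto_nhds_of_eventually_within
      · exact ((Continuous.prodMk continuous_id continuous_const).tendsto T).mono_left
          nhdsWithin_le_nhds
      · filter_upwards [self_mem_nhdsWithin] with t ht using ⟨⟨ht.1.le, ht.2.le⟩, hz⟩
    exact h1.tendsto.comp h2
  have : (𝓝[Ioo 0 T] T).NeBot := by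
    rw [← mem_closure_iff_nhdsWithin_neBot, closure_Ioo hT.ne]
    exact right_mem_Icc.2 hT.le
  have hG : Ok Ω c d (qr δ T r) N P n p T δ := by
    refine { wall := hd, hT := hT, hδ := rfl, lam0 := ?_, ka0 := ?_, y1 := ?_, X0 := ?_,
             Nc := hNc, Pc := hPc, N0 := hN0, P0 := hP0, Nd := hNd, Pd := hPd,
             hA1 := ?_, hA3 := ?_ }
    · simp only [qr]; positivity
    · simp only [qr]; positivity
    · simp only [qr]; positivity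
    · simp only [qr]; nlinarith [sq_pos_of_pos hδ]
    · simp only [qr]; exact le_refl _
    · simp only [qr]; exact le_refl _
  have hbox : ∀ t ∈ Ioo 0 T, ((t, z) : E) ∈ Box Ω c d (qr δ T r) t := by
    intro t ht
    refine ⟨⟨ht.1.le, le_refl _⟩, subset_closure hz.1, ?_, ?_, ?_⟩
    · simp only [qr]
      nlinarith [sq_nonneg δ]
    · simp only [qr]; rw [hz2]; linarith
    · simp only [qr]; rw [hz2]; linarith
  have hcmp : ∀ t ∈ Ioo 0 T, a ≤ w (t, z) + 2 * K * Fs (qr δ T r) N P t (d z) (dsq z c) :=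
    fun t ht => compare hG hwc hw2 heq hn hp hK haK hK0.le h0 ht.2 (hbox t ht)
  have hsub : Ioo (0:ℝ) T ⊆ Icc 0 T := Ioo_subset_Icc_self
  have hNl : Tendsto N (𝓝[Ioo 0 T] T) (𝓝 (N T)) :=
    (hNc T (right_mem_Icc.2 hT.le)).tendsto.mono_left (nhdsWithin_mono _ hsub)
  have hPl : Tendsto P (𝓝[Ioo 0 T] T) (𝓝 (P T)) :=
    (hPc T (right_mem_Icc.2 hT.le)).tendsto.mono_left (nhdsWithin_mono _ hsub)
  have hid : Tendsto (fun t : ℝ => t) (𝓝[Ioo 0 T] T) (𝓝 T) :=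
    tendsto_id.mono_left nhdsWithin_le_nhds
  have hFl : Tendsto (fun t : ℝ => Fs (qr δ T r) N P t (d z) (dsq z c)) (𝓝[Ioo 0 T] T)
      (𝓝 (Fs (qr δ T r) N P T (d z) (dsq z c))) := by
    unfold Fs F1 F2 F3
    refine (Tendsto.add ?_ ?_).add ?_
    · exact ((hid.const_mul _).add (((hNl.add_const _).sub_const _).const_mul _)).rexp
    · exact ((hid.const_mul _).add (((hNl.add_const _).sub_const _).const_mul _)).rexp
    · exact ((hid.const_mul _).add (((hPl.add_const _).sub_const _).const_mul _)).rexp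
  have hlimG := hlim.add (hFl.const_mul (2 * K))
  have hfin : a ≤ w (T, z) + 2 * K * Fs (qr δ T r) N P T (d z) (dsq z c) := by
    refine ge_of_tendsto hlimG ?_
    filter_upwards [self_mem_nhdsWithin] with t ht using hcmp t ht
  have hev := eval (N := N) (P := P) (R := dsq z c) hδ hT hr hrδ hNT hPT hz1
  rw [hz2] at hfin
  have := mul_le_mul_of_nonneg_left hev (by positivity : 0 ≤ 2 * K)
  linarith

/-- The bound at the final time for the vorticity near a wall. -/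
theorem wall {Ω : Set (ℝ × ℝ)} {c : ℝ × ℝ} {δ : ℝ} {d : ℝ × ℝ → ℝ} (hd : IsWall Ω c δ d)
    {T : ℝ} (hT : 0 < T) {u v w : E → ℝ}
    (hwc : ContinuousOn w (Icc 0 T ×ˢ Reg Ω c δ))
    (hw2 : ContDiffOn ℝ ((2 : ℕ) : ℕ∞) w (Ioo 0 T ×ˢ Reg Ω c δ))
    (heq : ∀ z ∈ Ioo 0 T ×ˢ Reg Ω c δ, pd et w z + u z * pd ex w z + v z * pd ey w z
      = pd ex (pd ex w) z + pd ey (pd ey w) z)
    {L l H h : ℝ → ℝ} (hLc : ContinuousOn L (Icc 0 T)) (hL0 : L 0 = 0)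
    (hLd : ∀ t ∈ Ioo 0 T, HasDerivAt L (l t) t) (hl : ∀ t ∈ Ioo 0 T, 0 ≤ l t)
    (hHc : ContinuousOn H (Icc 0 T)) (hH0 : H 0 = 0)
    (hHd : ∀ t ∈ Ioo 0 T, HasDerivAt H (h t) t) (hh : ∀ t ∈ Ioo 0 T, 0 ≤ h t)
    {θ : ℝ} (hθ : 0 ≤ θ)
    (huv : ∀ z ∈ Ioo 0 T ×ˢ Reg Ω c δ, u z ^ 2 + v z ^ 2 ≤ (l z.1 * d z.2) ^ 2)
    (hn : ∀ z ∈ Ioo 0 T ×ˢ Reg Ω c δ,
      |u z * dx d z.2 + v z * dy d z.2| ≤ h z.1 * d z.2 ^ (1 + θ))
    {K a : ℝ} (ha : 0 < a) (haK : a ≤ K) (hK : ∀ z ∈ Ioo 0 T ×ˢ Reg Ω c δ, |w z| ≤ K)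
    (h0 : ∀ z ∈ Reg Ω c δ, a ≤ w (0, z)) {r : ℝ} (hr : 0 < r) (hrδ : r ≤ δ / 2)
    (hLT : L T ≤ δ / (8 * r)) (hHT : H T * r ^ θ ≤ 1 / 5)
    {z : ℝ × ℝ} (hz : z ∈ Reg Ω c δ)
    (hz1 : dsq z c ≤ δ ^ 2 / 4) (hz2 : d z = 3 * r / 5) :
    a - 7 * K * Real.exp (-(r ^ 2 / (100 * T))) ≤ w (T, z) := by
  have hδ := hd.radius_pos
  have hL := mono_nonneg hT hLc hL0 hLd hl
  have hH := mono_nonneg hT hHc hH0 hHd hh
  have hrp : 0 ≤ r ^ (1 + θ) := by positivity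
  refine final hd hT hwc hw2 heq hr hrδ (N := fun t => H t * r ^ (1 + θ))
    (P := fun t => L t * (2 * δ * r)) (n := fun t => h t * r ^ (1 + θ))
    (p := fun t => l t * (2 * δ * r)) (hHc.mul continuousOn_const) (hLc.mul continuousOn_const)
    (fun t ht => mul_nonneg (hH t ht) hrp) (fun t ht => mul_nonneg (hL t ht) (by positivity))
    (fun t ht => (hHd t ht).mul_const _) (fun t ht => (hLd t ht).mul_const _) ?_ ?_ ?_ ?_
    ha haK hK h0 hz hz1 hz2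
  · have e : H T * r ^ (1 + θ) = H T * r ^ θ * r := by
      rw [Real.rpow_add hr, Real.rpow_one]; ring
    show H T * r ^ (1 + θ) ≤ r / 5
    rw [e]
    nlinarith
  · show L T * (2 * δ * r) ≤ δ ^ 2 / 4
    have := mul_le_mul_of_nonneg_right hLT (by positivity : 0 ≤ 2 * δ * r)
    have e : δ / (8 * r) * (2 * δ * r) = δ ^ 2 / 4 := by field_simp; ring
    rw [e] at this
    exact this
  · intro z hz h1 h2
    refine (hn z hz).trans ?_
    show h z.1 * d z.2 ^ (1 + θ) ≤ h z.1 * r ^ (1 + θ)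
    apply mul_le_mul_of_nonneg_left _ (hh z.1 hz.1)
    exact Real.rpow_le_rpow (by linarith) h2 (by linarith)
  · intro z hz h1 h2
    show _ ≤ l z.1 * (2 * δ * r)
    have hl0 := hl z.1 hz.1
    have hd0 : 0 < d z.2 := hd.pos _ hz.2
    apply abs_le_of_sq_le_sq _ (by positivity)
    have hR : (2 * (z.2.1 - c.1)) ^ 2 + (2 * (z.2.2 - c.2)) ^ 2 ≤ (2 * δ) ^ 2 := by
      have : dsq z.2 c < δ ^ 2 := hz.2.2
      unfold dsq at this
      nlinarith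
    have huv' := huv z hz
    have hld : l z.1 * d z.2 ≤ l z.1 * r := mul_le_mul_of_nonneg_left h2 hl0
    have hld2 : (l z.1 * d z.2) ^ 2 ≤ (l z.1 * r) ^ 2 :=
      pow_le_pow_left₀ (mul_nonneg hl0 hd0.le) hld 2
    calc (u z * (2 * (z.2.1 - c.1)) + v z * (2 * (z.2.2 - c.2))) ^ 2
        ≤ (u z ^ 2 + v z ^ 2) * ((2 * (z.2.1 - c.1)) ^ 2 + (2 * (z.2.2 - c.2)) ^ 2) := by
          nlinarith [sq_nonneg (u z * (2 * (z.2.2 - c.2)) - v z * (2 * (z.2.1 - c.1)))]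
      _ ≤ (l z.1 * r) ^ 2 * (2 * δ) ^ 2 :=
          mul_le_mul (huv'.trans hld2) hR (by positivity) (by positivity)
      _ = (l z.1 * (2 * δ * r)) ^ 2 := by ring

/-- The alternative: exponentially large vorticity, or a large action. -/
theorem alt {T δ K a b θ LT HT wT r α β : ℝ} (hT : 0 < T) (haK : a ≤ K)
    (hb : 0 ≤ b) (hba : b < a) (hr : r = 10 * √(T * Real.log (8 * K / (a - b))))
    (hwb : wT ≤ b) (key : 0 < r → r ≤ δ / 2 → 30 * T ≤ r * δ → LT ≤ α → HT * r ^ θ ≤ β →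
      a - 7 * K * Real.exp (-(r ^ 2 / (100 * T))) ≤ wT) :
    δ / 2 < r ∨ α < LT ∨ β * r ^ (-θ) < HT := by
  have hab : 0 < a - b := by linarith
  have hK0 : 0 < K := by linarith
  have h8 : 8 ≤ 8 * K / (a - b) := by
    rw [le_div_iff₀ hab]; linarith
  set Q := Real.log (8 * K / (a - b)) with hQ
  have hQ1 : 1 ≤ Q := by
    rw [hQ, Real.le_log_iff_exp_le (by linarith)]
    have := Real.exp_one_lt_d9
    linarith
  have hQ0 : 0 < Q := by linarith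
  have hTQ : 0 < T * Q := mul_pos hT hQ0
  have hr0 : 0 < r := by rw [hr]; positivity
  have hr2 : r ^ 2 = 100 * (T * Q) := by
    rw [hr, mul_pow, Real.sq_sqrt hTQ.le]
    norm_num
  by_contra hc
  push Not at hc
  obtain ⟨c1, c2, c3⟩ := hc
  have h1 : HT * r ^ θ ≤ β := by
    have hp : 0 < r ^ θ := Real.rpow_pos_of_pos hr0 _
    have := mul_le_mul_of_nonneg_right c3 hp.le
    have e : β * r ^ (-θ) * r ^ θ = β := by
      rw [mul_assoc, ← Real.rpow_add hr0]; simp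
    rwa [e] at this
  have hTr : 30 * T ≤ r * δ := by
    have e1 : T ≤ T * Q := by nlinarith
    nlinarith
  have h2 := key hr0 c1 hTr c2 h1
  have h3 : r ^ 2 / (100 * T) = Q := by
    rw [hr2]
    field_simp
  rw [h3, Real.exp_neg, hQ, Real.exp_log (by linarith)] at h2
  have h4 : 7 * K * (8 * K / (a - b))⁻¹ = 7 / 8 * (a - b) := by
    field_simp
  rw [h4] at h2
  linarith

end Pool.Agent.J6H79.WP
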